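import Mathlib
import Pool.Agent.Lib.MP_e2b89c_an.Main

set_option autoImplicit false

namespace Pool.Agent.Results.MP_e2b89c_an.CriticalLength

open Set Pool.Agent.LV65

/-- For every `a > 0`, `b > 1` with `b > a` there is a critical length `L* > π`: below it the
competitive Lotka–Volterra system with boundary controls is asymptotically controllable to `(0,1)`
from all initial data, above it a barrier exists and from some initial data the system is
asymptotically controllable neither to `(0,1)` nor, when `a > 1`, to the coexistence state. -/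
theorem result : ∀ a b : ℝ, 0 < a → 1 < b → a < b → ∃ Lstar : ℝ, Real.pi < Lstar ∧
    (∀ L : ℝ, 0 < L → L < Lstar → ∀ y10 y20 : ℝ → ℝ, IsDatum L y10 → IsDatum L y20 →
      AsympControllable a b L y10 y20 0 1) ∧
    (∀ L : ℝ, Lstar < L → (∃ θ1 θ2 : ℝ → ℝ, IsBarrier a b L θ1 θ2) ∧
      ∃ y10 y20 : ℝ → ℝ, IsDatum L y10 ∧ IsDatum L y20 ∧
        ¬ AsympControllable a b L y10 y20 0 1 ∧
        (1 < a → ¬ AsympControllable a b L y10 y20
          ((a - 1) / (a * b - 1)) ((b - 1) / (a * b - 1)))) :=
  fun _ _ ha hb hab => main ha hb hab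

end Pool.Agent.Results.MP_e2b89c_an.CriticalLength
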